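import Pool.Agent.helper54.RQ.CN1

/-!
# RQ project, module CN: sums over connected families
-/

set_option autoImplicit false

open Matrix
open scoped BigOperators ComplexConjugate

namespace Pool.Agent.helper54.RQ

open Pool.Agent.helper98.RPB

variable {X : Type}

theorem CN_adj {ι : Type} {T : ℕ} (V : Matrix X X ℂ) (a : ι → Pth X T) (i j : ι)
    (h : (linkGraph V a).Adj i j) : Link V (a j) (a i) := by
  obtain ⟨-, h | h⟩ := (SimpleGraph.fromRel_adj _ _ _).1 h
  · obtain ⟨t, t', h1⟩ := h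
    exact ⟨t', t, h1.symm⟩
  · exact h

theorem CN_induce {ι : Type} {T : ℕ} (V : Matrix X X ℂ) (a : ι → Pth X T) (v : ι) :
    (linkGraph V a).induce {v}ᶜ = linkGraph V (fun j : {j // j ≠ v} => a j) := by
  ext x y
  constructor
  · intro h
    have h0 : (linkGraph V a).Adj x.1 y.1 := h
    have h' := (SimpleGraph.fromRel_adj _ _ _).1 h0
    exact (SimpleGraph.fromRel_adj _ _ _).2 ⟨fun e => h'.1 (congrArg Subtype.val e), h'.2⟩
  · intro h
    have h' := (SimpleGraph.fromRel_adj _ _ _).1 h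
    have h0 : (linkGraph V a).Adj x.1 y.1 :=
      (SimpleGraph.fromRel_adj (fun i j => Link V (a i) (a j)) _ _).2
        ⟨fun e => h'.1 (Subtype.ext e), h'.2⟩
    exact h0

variable [Fintype X] [DecidableEq X]

open Classical in
theorem CN_link (V : Matrix X X ℂ) (D T : ℕ) (s : Finset X) (κ : ℝ) (hκ0 : 0 ≤ κ)
    (hrow : ∀ x, ∑ y, ‖V x y‖ ^ 2 = 1) (hcol : ∀ y, ∑ x, ‖V x y‖ ^ 2 = 1)
    (hrowD : ∀ x, (Finset.univ.filter fun y => V x y ≠ 0).card ≤ D)
    (hcolD : ∀ y, (Finset.univ.filter fun x => V x y ≠ 0).card ≤ D)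
    (hκ : ∀ t, t ≤ T → T ≤ 2 * t → ∀ z, ∑ x ∈ s, (sqm V ^ t) x z ≤ κ ∧
      ∑ x ∈ s, (sqm V ^ t) z x ≤ κ) (p : Pth X T) :
    ∑ p' : Pth X T, (if (p' 0 ∈ s ∧ p' (Fin.last T) ∈ s) ∧ Link V p p' then wt V p' ^ 2 else 0) ≤
      2 * ((T : ℝ) + 1) ^ 2 * D * κ := by
  have hM : ∀ x y, 0 ≤ sqm V x y := fun x y => by
    change 0 ≤ ‖V x y‖ ^ 2
    positivity
  have hnn : ∀ (P : Prop) [Decidable P] (p' : Pth X T),
      0 ≤ if P then CN_pw (sqm V) p' else 0 := fun P _ p' => by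
    split_ifs
    · exact CN_pw_nonneg _ hM p'
    · exact le_rfl
  let N : X → Finset X := fun x =>
    (Finset.univ.filter fun z => V z x ≠ 0) ∪ (Finset.univ.filter fun z => V x z ≠ 0)
  have hN : ∀ x, ((N x).card : ℝ) ≤ 2 * D := by
    intro x
    have h1 : (N x).card ≤ D + D :=
      (Finset.card_union_le _ _).trans (add_le_add (hcolD x) (hrowD x))
    have h2 : ((N x).card : ℝ) ≤ ((D + D : ℕ) : ℝ) := by exact_mod_cast h1
    push_cast at h2
    linarith
  have h1 : ∀ p' : Pth X T,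
      (if (p' 0 ∈ s ∧ p' (Fin.last T) ∈ s) ∧ Link V p p' then wt V p' ^ 2 else 0) ≤
      ∑ t : Fin (T + 1), ∑ t' : Fin (T + 1), ∑ z ∈ N (p t),
        if (p' 0 ∈ s ∧ p' (Fin.last T) ∈ s) ∧ p' t' = z then CN_pw (sqm V) p' else 0 := by
    intro p'
    by_cases h : (p' 0 ∈ s ∧ p' (Fin.last T) ∈ s) ∧ Link V p p'
    · rw [if_pos h, CN_wt]
      obtain ⟨hg, t, t', h2⟩ := h
      have hz : p' t' ∈ N (p t) := by
        rcases h2 with h2 | h2
        · exact Finset.mem_union_left _ (Finset.mem_filter.2 ⟨Finset.mem_univ _, h2⟩)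
        · exact Finset.mem_union_right _ (Finset.mem_filter.2 ⟨Finset.mem_univ _, h2⟩)
      have h3 := Finset.single_le_sum (f := fun z =>
        if (p' 0 ∈ s ∧ p' (Fin.last T) ∈ s) ∧ p' t' = z then CN_pw (sqm V) p' else 0)
        (fun z _ => hnn _ p') hz
      have h4 := Finset.single_le_sum (f := fun t' => ∑ z ∈ N (p t),
        if (p' 0 ∈ s ∧ p' (Fin.last T) ∈ s) ∧ p' t' = z then CN_pw (sqm V) p' else 0)
        (fun t' _ => Finset.sum_nonneg fun z _ => hnn _ p') (Finset.mem_univ t')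
      have h5 := Finset.single_le_sum (f := fun t => ∑ t' : Fin (T + 1), ∑ z ∈ N (p t),
        if (p' 0 ∈ s ∧ p' (Fin.last T) ∈ s) ∧ p' t' = z then CN_pw (sqm V) p' else 0)
        (fun t _ => Finset.sum_nonneg fun t' _ => Finset.sum_nonneg fun z _ => hnn _ p')
        (Finset.mem_univ t)
      refine le_trans (le_of_eq ?_) (h3.trans (h4.trans h5))
      simp only
      rw [if_pos ⟨hg, trivial⟩]
    · rw [if_neg h]
      exact Finset.sum_nonneg fun t _ => Finset.sum_nonneg fun t' _ =>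
        Finset.sum_nonneg fun z _ => hnn _ p'
  refine (Finset.sum_le_sum fun p' _ => h1 p').trans ?_
  rw [Finset.sum_comm]
  have h2 : ∀ t : Fin (T + 1), ∑ p' : Pth X T, ∑ t' : Fin (T + 1), ∑ z ∈ N (p t),
      (if (p' 0 ∈ s ∧ p' (Fin.last T) ∈ s) ∧ p' t' = z then CN_pw (sqm V) p' else 0) ≤
      ((T : ℝ) + 1) * (2 * D * κ) := by
    intro t
    rw [Finset.sum_comm]
    have h3 : ∀ t' : Fin (T + 1), ∑ p' : Pth X T, ∑ z ∈ N (p t),
        (if (p' 0 ∈ s ∧ p' (Fin.last T) ∈ s) ∧ p' t' = z then CN_pw (sqm V) p' else 0) ≤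
        2 * D * κ := by
      intro t'
      rw [Finset.sum_comm]
      refine (Finset.sum_le_sum fun z _ =>
        CN_through (sqm V) hM hrow hcol T s κ hκ t' z).trans ?_
      rw [Finset.sum_const, nsmul_eq_mul]
      exact mul_le_mul_of_nonneg_right (hN _) hκ0
    refine (Finset.sum_le_sum fun t' _ => h3 t').trans (le_of_eq ?_)
    rw [Finset.sum_const, nsmul_eq_mul, Finset.card_univ, Fintype.card_fin]
    push_cast
    ring
  refine (Finset.sum_le_sum fun t _ => h2 t).trans (le_of_eq ?_)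
  rw [Finset.sum_const, nsmul_eq_mul, Finset.card_univ, Fintype.card_fin]
  push_cast
  ring

open Classical in
theorem CN_ind (V : Matrix X X ℂ) (T : ℕ) (s : Finset X) (B : ℝ) (hB : 0 ≤ B)
    (hlink : ∀ p : Pth X T, ∑ p' : Pth X T,
      (if (p' 0 ∈ s ∧ p' (Fin.last T) ∈ s) ∧ Link V p p' then wt V p' ^ 2 else 0) ≤ B)
    (hstart : ∑ p' : Pth X T, (if p' 0 ∈ s ∧ p' (Fin.last T) ∈ s then wt V p' ^ 2 else 0) ≤
      s.card) :
    ∀ m : ℕ, ∀ (ι : Type) [Fintype ι] [DecidableEq ι], Fintype.card ι = m + 1 →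
      ∑ a : ι → Pth X T, (if (∀ j, a j 0 ∈ s) ∧ (∀ j, a j (Fin.last T) ∈ s) ∧
        (linkGraph V a).Connected then ∏ j, wt V (a j) ^ 2 else 0) ≤
        s.card * (((m : ℝ) + 1) ^ 2 * B) ^ m := by
  intro m
  induction m with
  | zero =>
    intro ι _ _ hι
    obtain ⟨x, hx⟩ := Fintype.card_eq_one_iff.1 hι
    let _ : Unique ι := ⟨⟨x⟩, hx⟩
    rw [pow_zero, mul_one]
    refine le_trans ?_ hstart
    rw [← Fintype.sum_equiv (Equiv.funUnique ι (Pth X T)) (fun a : ι → Pth X T =>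
      if a default 0 ∈ s ∧ a default (Fin.last T) ∈ s then wt V (a default) ^ 2 else 0) _
      (fun a => rfl)]
    refine Finset.sum_le_sum fun a _ => ?_
    by_cases h : (∀ j, a j 0 ∈ s) ∧ (∀ j, a j (Fin.last T) ∈ s) ∧ (linkGraph V a).Connected
    · rw [if_pos h, if_pos ⟨h.1 _, h.2.1 _⟩, Fintype.prod_unique]
    · rw [if_neg h]
      split_ifs
      · positivity
      · exact le_rfl
  | succ m ih =>
    intro ι _ _ hι
    have hnt : Nontrivial ι := Fintype.one_lt_card_iff_nontrivial.1 (by omega)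
    let G : ∀ v : ι, ({j // j ≠ v} → Pth X T) → ℝ := fun v a' =>
      if (∀ j, a' j 0 ∈ s) ∧ (∀ j, a' j (Fin.last T) ∈ s) ∧ (linkGraph V a').Connected then
        ∏ j, wt V (a' j) ^ 2 else 0
    have hG : ∀ v a', 0 ≤ G v a' := by
      intro v a'
      simp only [G]
      split_ifs
      · exact Finset.prod_nonneg fun _ _ => by positivity
      · exact le_rfl
    let H : ∀ v : ι, Pth X T × ({j // j ≠ v} → Pth X T) → ℝ := fun v pa =>
      G v pa.2 * ∑ i : {j // j ≠ v},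
        (if (pa.1 0 ∈ s ∧ pa.1 (Fin.last T) ∈ s) ∧ Link V (pa.2 i) pa.1 then wt V pa.1 ^ 2 else 0)
    have hH : ∀ v pa, 0 ≤ H v pa := by
      intro v pa
      refine mul_nonneg (hG v _) (Finset.sum_nonneg fun i _ => ?_)
      split_ifs
      · positivity
      · exact le_rfl
    have h1 : ∀ a : ι → Pth X T, (if (∀ j, a j 0 ∈ s) ∧ (∀ j, a j (Fin.last T) ∈ s) ∧
        (linkGraph V a).Connected then ∏ j, wt V (a j) ^ 2 else 0) ≤
        ∑ v, H v (Equiv.funSplitAt v (Pth X T) a) := by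
      intro a
      by_cases h : (∀ j, a j 0 ∈ s) ∧ (∀ j, a j (Fin.last T) ∈ s) ∧ (linkGraph V a).Connected
      · rw [if_pos h]
        obtain ⟨ha0, ha1, hc⟩ := h
        obtain ⟨v, hv⟩ := hc.exists_connected_induce_compl_singleton_of_finite_nontrivial
        rw [CN_induce] at hv
        obtain ⟨w, hw⟩ := exists_ne v
        obtain ⟨pw⟩ := hc.preconnected v w
        obtain ⟨i, hi, -, -⟩ := SimpleGraph.Walk.exists_eq_cons_of_ne hw.symm pw
        have hiv : i ≠ v := hi.ne'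
        have hL := CN_adj V a _ _ hi
        refine le_trans ?_ (Finset.single_le_sum (fun v _ => hH v _) (Finset.mem_univ v))
        have e1 : (Equiv.funSplitAt v (Pth X T) a).2 = fun j : {j // j ≠ v} => a j := rfl
        have e2 : (Equiv.funSplitAt v (Pth X T) a).1 = a v := rfl
        simp only [H, e1, e2, G]
        rw [if_pos ⟨fun j => ha0 j, fun j => ha1 j, hv⟩,
          Fintype.prod_eq_mul_prod_subtype_ne (fun j => wt V (a j) ^ 2) v, mul_comm]
        refine mul_le_mul_of_nonneg_left ?_ (Finset.prod_nonneg fun _ _ => by positivity)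
        refine le_trans (le_of_eq ?_) (Finset.single_le_sum (f := fun i : {j // j ≠ v} =>
          if (a v 0 ∈ s ∧ a v (Fin.last T) ∈ s) ∧ Link V (a i) (a v) then wt V (a v) ^ 2 else 0)
          (fun i _ => ?_) (Finset.mem_univ (⟨i, hiv⟩ : {j // j ≠ v})))
        · simp only
          rw [if_pos ⟨⟨ha0 v, ha1 v⟩, hL⟩]
        · split_ifs
          · positivity
          · exact le_rfl
      · rw [if_neg h]
        exact Finset.sum_nonneg fun v _ => hH v _
    refine (Finset.sum_le_sum fun a _ => h1 a).trans ?_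
    rw [Finset.sum_comm]
    have h2 : ∀ v : ι, ∑ a : ι → Pth X T, H v (Equiv.funSplitAt v (Pth X T) a) ≤
        (s.card * (((m : ℝ) + 1) ^ 2 * B) ^ m) * (((m : ℝ) + 1) * B) := by
      intro v
      have hc : Fintype.card {j // j ≠ v} = m + 1 := by
        rw [Fintype.card_subtype_compl, Fintype.card_subtype_eq, hι]
        rfl
      rw [Fintype.sum_equiv (Equiv.funSplitAt v (Pth X T)) _ (H v) (fun a => rfl),
        Fintype.sum_prod_type, Finset.sum_comm]
      have h3 : ∀ a' : {j // j ≠ v} → Pth X T, ∑ p : Pth X T, H v (p, a') ≤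
          G v a' * (((m : ℝ) + 1) * B) := by
        intro a'
        simp only [H]
        rw [← Finset.mul_sum, Finset.sum_comm]
        refine mul_le_mul_of_nonneg_left ?_ (hG v a')
        refine (Finset.sum_le_sum fun i _ => hlink (a' i)).trans (le_of_eq ?_)
        rw [Finset.sum_const, nsmul_eq_mul, Finset.card_univ, hc]
        push_cast
        ring
      refine (Finset.sum_le_sum fun a' _ => h3 a').trans ?_
      rw [← Finset.sum_mul]
      exact mul_le_mul_of_nonneg_right (ih _ hc) (by positivity)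
    refine (Finset.sum_le_sum fun v _ => h2 v).trans ?_
    rw [Finset.sum_const, nsmul_eq_mul, Finset.card_univ, hι]
    push_cast
    have e1 : ((m : ℝ) + 1 + 1) * ((s.card : ℝ) * (((m : ℝ) + 1) ^ 2 * B) ^ m *
        (((m : ℝ) + 1) * B)) = s.card * ((((m : ℝ) + 1) ^ 2 * B) ^ m *
        (((m : ℝ) + 1 + 1) * ((m : ℝ) + 1) * B)) := by ring
    rw [e1, pow_succ (((m : ℝ) + 1 + 1) ^ 2 * B) m]
    refine mul_le_mul_of_nonneg_left ?_ (Nat.cast_nonneg _)
    refine mul_le_mul ?_ ?_ (by positivity) (by positivity)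
    · refine pow_le_pow_left₀ (by positivity) ?_ _
      refine mul_le_mul_of_nonneg_right ?_ hB
      refine pow_le_pow_left₀ (by positivity) (by linarith) _
    · refine mul_le_mul_of_nonneg_right ?_ hB
      nlinarith [Nat.cast_nonneg (α := ℝ) m]

open Classical in
theorem sum_connected_le {ι : Type} [Fintype ι] [DecidableEq ι] [Nonempty ι]
    (V : Matrix X X ℂ) (D T : ℕ) (s : Finset X) (κ : ℝ) (hκ0 : 0 ≤ κ)
    (hrow : ∀ x, ∑ y, ‖V x y‖ ^ 2 = 1) (hcol : ∀ y, ∑ x, ‖V x y‖ ^ 2 = 1)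
    (hrowD : ∀ x, (Finset.univ.filter fun y => V x y ≠ 0).card ≤ D)
    (hcolD : ∀ y, (Finset.univ.filter fun x => V x y ≠ 0).card ≤ D)
    (hκ : ∀ t, t ≤ T → T ≤ 2 * t → ∀ z, ∑ x ∈ s, (sqm V ^ t) x z ≤ κ ∧
      ∑ x ∈ s, (sqm V ^ t) z x ≤ κ) :
    ∑ a : ι → Pth X T, (if (∀ j, a j 0 ∈ s) ∧ (∀ j, a j (Fin.last T) ∈ s) ∧
      (linkGraph V a).Connected then ∏ j, wt V (a j) ^ 2 else 0) ≤
      s.card * (2 * (Fintype.card ι : ℝ) ^ 2 * ((T : ℝ) + 1) ^ 2 * D * κ) ^
        (Fintype.card ι - 1) := by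
  have hM : ∀ x y, 0 ≤ sqm V x y := fun x y => by
    change 0 ≤ ‖V x y‖ ^ 2
    positivity
  have hc : Fintype.card ι = (Fintype.card ι - 1) + 1 := by
    have := Fintype.card_pos (α := ι)
    omega
  have h1 := CN_ind V T s (2 * ((T : ℝ) + 1) ^ 2 * D * κ) (by positivity)
    (CN_link V D T s κ hκ0 hrow hcol hrowD hcolD hκ)
    (by
      simp only [CN_wt]
      exact CN_start (sqm V) hM hrow hcol T s) (Fintype.card ι - 1) ι hc
  refine h1.trans (le_of_eq ?_)
  have e : ((Fintype.card ι - 1 : ℕ) : ℝ) + 1 = Fintype.card ι := by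
    have : (((Fintype.card ι - 1) + 1 : ℕ) : ℝ) = Fintype.card ι := by rw [← hc]
    push_cast at this
    exact this
  rw [e]
  congr 2
  ring

end Pool.Agent.helper54.RQ
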