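import Pool.Agent.helper98.RPB.Defs

/-!
# RQ project, module CN, part 1: sums over paths through a given state
-/

set_option autoImplicit false

open Matrix
open scoped BigOperators ComplexConjugate

namespace Pool.Agent.helper54.RQ

open Pool.Agent.helper98.RPB

variable {X : Type}

/-- the product of the entries along the path -/
noncomputable def CN_pw {T : ℕ} (M : Matrix X X ℝ) (p : Pth X T) : ℝ :=
  ∏ t : Fin T, M (p t.succ) (p t.castSucc)

theorem CN_pw_nonneg {T : ℕ} (M : Matrix X X ℝ) (hM : ∀ x y, 0 ≤ M x y) (p : Pth X T) :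
    0 ≤ CN_pw M p := Finset.prod_nonneg fun _ _ => hM _ _

theorem CN_wt {T : ℕ} (V : Matrix X X ℂ) (p : Pth X T) : wt V p ^ 2 = CN_pw (sqm V) p := by
  rw [wt, ← Finset.prod_pow]
  rfl

theorem CN_snoc {T : ℕ} (M : Matrix X X ℝ) (q : Pth X T) (x : X) :
    CN_pw M (Fin.snoc q x : Pth X (T + 1)) = CN_pw M q * M x (q (Fin.last T)) := by
  rw [CN_pw, Fin.prod_univ_castSucc]
  congr 1
  · refine Finset.prod_congr rfl fun t _ => ?_
    rw [Fin.succ_castSucc, Fin.snoc_castSucc, Fin.snoc_castSucc]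
  · rw [Fin.succ_last, Fin.snoc_last, Fin.snoc_castSucc]

variable [Fintype X]

theorem CN_sum_snoc {T : ℕ} (F : Pth X (T + 1) → ℝ) :
    ∑ p, F p = ∑ q : Pth X T, ∑ x : X, F (Fin.snoc q x) := by
  rw [Finset.sum_comm, ← Fintype.sum_prod_type' (f := fun (x : X) (q : Pth X T) => F (Fin.snoc q x))]
  exact (Fintype.sum_equiv (Fin.snocEquiv fun _ : Fin (T + 1 + 1) => X) _ _ fun _ => rfl).symm

variable [DecidableEq X]

theorem CN_trans {T : ℕ} (M : Matrix X X ℝ) (Φ : Pth X T → ℝ) (x : X) :
    ∑ p : Pth X (T + 1), (if p (Fin.last (T + 1)) = x then Φ (Fin.init p) * CN_pw M p else 0) =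
      ∑ y, M x y * ∑ q : Pth X T, (if q (Fin.last T) = y then Φ q * CN_pw M q else 0) := by
  rw [CN_sum_snoc]
  simp only [Fin.snoc_last, Fin.init_snoc, CN_snoc, Finset.sum_ite_eq', Finset.mem_univ, if_true,
    Finset.mul_sum]
  rw [Finset.sum_comm]
  refine Finset.sum_congr rfl fun q _ => ?_
  simp only [mul_ite, mul_zero, Finset.sum_ite_eq, Finset.mem_univ, if_true]
  ring

theorem CN_P (M : Matrix X X ℝ) (hrow : ∀ x, ∑ y, M x y = 1) (t : ℕ) (z : X) :
    ∀ T : ℕ, ∀ h : t ≤ T, ∀ x : X,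
      ∑ p : Pth X T, (if p (Fin.last T) = x then
        (if p ⟨t, by omega⟩ = z then 1 else 0) * CN_pw M p else 0) = (M ^ (T - t)) x z := by
  have base : ∀ T : ℕ, ∀ x : X,
      ∑ p : Pth X T, (if p (Fin.last T) = x then 1 * CN_pw M p else 0) = 1 := by
    intro T
    induction T with
    | zero =>
      intro x
      rw [Finset.sum_eq_single (fun _ => x)]
      · simp [CN_pw]
      · intro p _ hp
        rw [if_neg]
        intro h
        apply hp
        funext i
        rw [← h]
        congr 1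
        exact Subsingleton.elim (α := Fin 1) _ _
      · simp
    | succ T ih =>
      intro x
      rw [CN_trans M (fun _ => 1) x]
      simp only [ih, mul_one]
      exact hrow x
  intro T h
  induction T, h using Nat.le_induction with
  | base =>
    intro x
    rw [Nat.sub_self, pow_zero, Matrix.one_apply]
    have e : ∀ p : Pth X t, (if p (Fin.last t) = x then
        (if p ⟨t, by omega⟩ = z then 1 else 0) * CN_pw M p else 0) =
        if x = z then (if p (Fin.last t) = x then 1 * CN_pw M p else 0) else 0 := by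
      intro p
      have e1 : (⟨t, by omega⟩ : Fin (t + 1)) = Fin.last t := rfl
      rw [e1]
      by_cases h1 : p (Fin.last t) = x
      · rw [if_pos h1, if_pos h1, h1]
        split_ifs <;> simp
      · rw [if_neg h1, if_neg h1]
        split_ifs <;> rfl
    rw [Finset.sum_congr rfl fun p _ => e p]
    split_ifs
    · exact base t x
    · simp
  | succ T hT ih =>
    intro x
    have h1 := CN_trans M (fun q : Pth X T => if q ⟨t, by omega⟩ = z then 1 else 0) x
    have e : T + 1 - t = (T - t) + 1 := by omega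
    rw [e, pow_succ', Matrix.mul_apply]
    refine Eq.trans ?_ (h1.trans (Finset.sum_congr rfl fun y _ => by rw [ih y]))
    rfl

theorem CN_Q (M : Matrix X X ℝ) (hrow : ∀ x, ∑ y, M x y = 1) (hcol : ∀ y, ∑ x, M x y = 1)
    (t : ℕ) (y z : X) :
    ∀ T : ℕ, ∀ h : t ≤ T,
      ∑ p : Pth X T, (if p 0 = y ∧ p ⟨t, by omega⟩ = z then CN_pw M p else 0) =
        (M ^ t) z y := by
  intro T h
  induction T, h using Nat.le_induction with
  | base =>
    have h1 := CN_P M hrow 0 y t (Nat.zero_le t) z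
    rw [Nat.sub_zero] at h1
    rw [← h1]
    refine Finset.sum_congr rfl fun p _ => ?_
    have e1 : (⟨t, by omega⟩ : Fin (t + 1)) = Fin.last t := rfl
    have e2 : (⟨0, by omega⟩ : Fin (t + 1)) = 0 := rfl
    rw [e1, e2]
    by_cases h2 : p (Fin.last t) = z <;> by_cases h3 : p 0 = y <;> simp [h2, h3]
  | succ T hT ih =>
    rw [← ih, CN_sum_snoc]
    refine Finset.sum_congr rfl fun q _ => ?_
    have e0 : ∀ x : X, (Fin.snoc q x : Pth X (T + 1)) 0 = q 0 := fun x =>
      Fin.snoc_castSucc (α := fun _ => X) (i := (0 : Fin (T + 1))) ..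
    have e1 : ∀ x : X, (Fin.snoc q x : Pth X (T + 1)) ⟨t, by omega⟩ = q ⟨t, by omega⟩ := fun x =>
      Fin.snoc_castSucc (α := fun _ => X) (i := (⟨t, by omega⟩ : Fin (T + 1))) ..
    simp only [e0, e1, CN_snoc]
    split_ifs
    · rw [← Finset.mul_sum, hcol, mul_one]
    · simp

/-- total weight of the paths from `s` to `s` through `z` at time `t` -/
theorem CN_through (M : Matrix X X ℝ) (hM : ∀ x y, 0 ≤ M x y) (hrow : ∀ x, ∑ y, M x y = 1)
    (hcol : ∀ y, ∑ x, M x y = 1) (T : ℕ) (s : Finset X) (κ : ℝ)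
    (hκ : ∀ t, t ≤ T → T ≤ 2 * t → ∀ z, ∑ x ∈ s, (M ^ t) x z ≤ κ ∧ ∑ x ∈ s, (M ^ t) z x ≤ κ)
    (t : Fin (T + 1)) (z : X) :
    ∑ p : Pth X T, (if (p 0 ∈ s ∧ p (Fin.last T) ∈ s) ∧ p t = z then CN_pw M p else 0) ≤ κ := by
  have ht := t.2
  rcases Nat.lt_or_ge (2 * (t : ℕ)) T with h1 | h1
  · -- use the second part of the path
    have h2 := (hκ (T - t) (by omega) (by omega) z).1
    refine le_trans ?_ h2
    rw [← Finset.sum_congr rfl fun x _ => CN_P M hrow t z T (by omega) x, Finset.sum_comm]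
    refine Finset.sum_le_sum fun p _ => ?_
    have e : (⟨(t : ℕ), by omega⟩ : Fin (T + 1)) = t := rfl
    rw [e, Finset.sum_ite_eq]
    by_cases h3 : p (Fin.last T) ∈ s
    · by_cases h4 : p t = z
      · rw [if_pos h3, if_pos h4, one_mul]
        split_ifs
        · exact le_rfl
        · exact CN_pw_nonneg M hM p
      · rw [if_neg (fun h => h4 h.2), if_pos h3, if_neg h4, zero_mul]
    · rw [if_neg h3, if_neg (fun h => h3 h.1.2)]
  · have h2 := (hκ t (by omega) h1 z).2
    refine le_trans ?_ h2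
    rw [← Finset.sum_congr rfl fun x _ => CN_Q M hrow hcol t x z T (by omega), Finset.sum_comm]
    refine Finset.sum_le_sum fun p _ => ?_
    have e : (⟨(t : ℕ), by omega⟩ : Fin (T + 1)) = t := rfl
    rw [e]
    by_cases h3 : (p 0 ∈ s ∧ p (Fin.last T) ∈ s) ∧ p t = z
    · rw [if_pos h3]
      have h4 := Finset.single_le_sum (f := fun x => if p 0 = x ∧ p t = z then CN_pw M p else 0)
        (fun x _ => by
          split_ifs
          · exact CN_pw_nonneg M hM p
          · exact le_rfl) h3.1.1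
      refine le_trans (le_of_eq ?_) h4
      simp only
      rw [if_pos ⟨trivial, h3.2⟩]
    · rw [if_neg h3]
      refine Finset.sum_nonneg fun x _ => ?_
      split_ifs
      · exact CN_pw_nonneg M hM p
      · exact le_rfl

theorem CN_start (M : Matrix X X ℝ) (hM : ∀ x y, 0 ≤ M x y) (hrow : ∀ x, ∑ y, M x y = 1)
    (hcol : ∀ y, ∑ x, M x y = 1) (T : ℕ) (s : Finset X) :
    ∑ p : Pth X T, (if p 0 ∈ s ∧ p (Fin.last T) ∈ s then CN_pw M p else 0) ≤ s.card := by
  have h1 : ∑ y ∈ s, ∑ p : Pth X T, (if p 0 = y ∧ p ⟨0, by omega⟩ = y then CN_pw M p else 0) =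
      s.card := by
    rw [Finset.sum_congr rfl fun y _ => CN_Q M hrow hcol 0 y y T (by omega)]
    simp
  rw [← h1, Finset.sum_comm]
  refine Finset.sum_le_sum fun p _ => ?_
  by_cases h3 : p 0 ∈ s ∧ p (Fin.last T) ∈ s
  · rw [if_pos h3]
    have h4 := Finset.single_le_sum
      (f := fun x => if p 0 = x ∧ p ⟨0, by omega⟩ = x then CN_pw M p else 0)
      (fun x _ => by
        split_ifs
        · exact CN_pw_nonneg M hM p
        · exact le_rfl) h3.1
    refine le_trans (le_of_eq ?_) h4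
    simp only
    rw [if_pos ⟨trivial, rfl⟩]
  · rw [if_neg h3]
    refine Finset.sum_nonneg fun x _ => ?_
    split_ifs
    · exact CN_pw_nonneg M hM p
    · exact le_rfl

end Pool.Agent.helper54.RQ
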