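import Pool.Agent.helper98.RPB.Defs

/-!
# RQ project, module CT: few partners
-/

set_option autoImplicit false

open Matrix
open scoped BigOperators ComplexConjugate

namespace Pool.Agent.helper54.RQ

open Pool.Agent.helper98.RPB

variable {X : Type}

theorem CT_piece (V : Matrix X X ℂ) (n q T : ℕ) (hT : T = q * n) (b : Pth X T) (hb : IsPath V b)
    (r : ℕ) (hr : r < q) :
    IsPath V (fun u : Fin (n + 1) => b ⟨r * n + u, by
      have := u.2
      have h1 : (r + 1) * n ≤ q * n := Nat.mul_le_mul_right _ hr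
      rw [Nat.add_mul, one_mul] at h1
      omega⟩) := by
  intro u
  have hu := u.2
  have h1 : (r + 1) * n ≤ q * n := Nat.mul_le_mul_right _ hr
  rw [Nat.add_mul, one_mul] at h1
  exact hb ⟨r * n + u, by omega⟩

theorem CT_eq (V : Matrix X X ℂ) (n q T : ℕ) (hn : 1 ≤ n) (hq : 1 ≤ q) (hT : T = q * n)
    (huniq : ∀ p p' : Pth X n, IsPath V p → IsPath V p' → p 0 = p' 0 →
      p (Fin.last n) = p' (Fin.last n) → p = p')
    (b b' : Pth X T) (hb : IsPath V b) (hb' : IsPath V b')
    (h : ∀ (r : ℕ) (hr : r * n < T + 1), b ⟨r * n, hr⟩ = b' ⟨r * n, hr⟩) : b = b' := by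
  funext t
  obtain ⟨r, hr, s, hs, hts⟩ : ∃ r, r < q ∧ ∃ s, s ≤ n ∧ (t : ℕ) = r * n + s := by
    rcases Nat.lt_or_ge (t : ℕ) T with h1 | h1
    · refine ⟨t / n, ?_, t % n, (Nat.mod_lt _ hn).le, ?_⟩
      · rw [Nat.div_lt_iff_lt_mul hn, ← hT]
        exact h1
      · rw [mul_comm]
        exact (Nat.div_add_mod _ _).symm
    · refine ⟨q - 1, by omega, n, le_rfl, ?_⟩
      have h2 := t.2
      have h3 : (q - 1) * n + n = q * n := by
        rw [← Nat.succ_mul]
        congr 1
        omega
      omega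
  have h1 : (r + 1) * n ≤ q * n := Nat.mul_le_mul_right _ hr
  have h1' := h1
  rw [Nat.add_mul, one_mul] at h1
  have h2 := huniq _ _ (CT_piece V n q T hT b hb r hr) (CT_piece V n q T hT b' hb' r hr)
    (by
      have := h r (by omega)
      simpa using this)
    (by
      have := h (r + 1) (by omega)
      simp only [Fin.val_last]
      have e : (⟨r * n + n, by omega⟩ : Fin (T + 1)) = ⟨(r + 1) * n, by omega⟩ := by
        apply Fin.ext
        simp only
        ring
      rw [e]
      exact this)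
  have h3 := congrFun h2 ⟨s, by omega⟩
  have e : t = ⟨r * n + s, by omega⟩ := Fin.ext hts
  rw [e]
  exact h3

variable [Fintype X] [DecidableEq X]

open Classical in
theorem card_partner_le {ι : Type} [Fintype ι] [DecidableEq ι] (V : Matrix X X ℂ) (n q T : ℕ)
    (hn : 1 ≤ n) (hq : 1 ≤ q) (hT : T = q * n)
    (huniq : ∀ p p' : Pth X n, IsPath V p → IsPath V p' → p 0 = p' 0 →
      p (Fin.last n) = p' (Fin.last n) → p = p')
    (a : ι → Pth X T) :
    (Finset.univ.filter fun b : ι → Pth X T => (∀ j, IsPath V (b j)) ∧ (∀ j, b j 0 = a j 0) ∧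
      ∀ j (t : Fin T), ∃ i, ∃ t' : Fin T, b j t.succ = a i t'.succ).card ≤
      (Fintype.card ι * T) ^ (q * Fintype.card ι) := by
  let S : Finset X := Finset.univ.image fun it : ι × Fin T => a it.1 it.2.succ
  have hS : S.card ≤ Fintype.card ι * T := by
    refine Finset.card_image_le.trans (le_of_eq ?_)
    rw [Finset.card_univ, Fintype.card_prod, Fintype.card_fin]
  have hlt : ∀ r : Fin q, (r + 1 : ℕ) * n < T + 1 := by
    intro r
    have := r.2
    have h1 : (r + 1 : ℕ) * n ≤ q * n := Nat.mul_le_mul_right _ r.2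
    omega
  have hcard : (Fintype.piFinset (fun _ : ι × Fin q => S)).card ≤
      (Fintype.card ι * T) ^ (q * Fintype.card ι) := by
    rw [Fintype.card_piFinset, Finset.prod_const, Finset.card_univ, Fintype.card_prod,
      Fintype.card_fin, mul_comm q]
    exact Nat.pow_le_pow_left hS _
  refine le_trans (Finset.card_le_card_of_injOn
    (fun b (jr : ι × Fin q) => b jr.1 ⟨(jr.2 + 1 : ℕ) * n, hlt jr.2⟩) ?_ ?_) hcard
  · intro b hb
    obtain ⟨-, -, -, hb3⟩ := Finset.mem_filter.1 (Finset.mem_coe.1 hb)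
    refine Finset.mem_coe.2 (Fintype.mem_piFinset.2 fun jr => ?_)
    have h1 := hlt jr.2
    have h2 : 1 ≤ (jr.2 + 1 : ℕ) * n := Nat.one_le_iff_ne_zero.2 (by positivity)
    obtain ⟨i, t', h⟩ := hb3 jr.1 ⟨(jr.2 + 1 : ℕ) * n - 1, by omega⟩
    refine Finset.mem_image.2 ⟨(i, t'), Finset.mem_univ _, ?_⟩
    rw [← h]
    congr 1
    apply Fin.ext
    simp only [Fin.val_succ]
    omega
  · intro b hb b' hb' h
    obtain ⟨-, hb1, hb2, -⟩ := Finset.mem_filter.1 (Finset.mem_coe.1 hb)
    obtain ⟨-, hb1', hb2', -⟩ := Finset.mem_filter.1 (Finset.mem_coe.1 hb')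
    funext j
    have h0 : b j 0 = b' j 0 := by rw [hb2, hb2']
    refine CT_eq V n q T hn hq hT huniq _ _ (hb1 j) (hb1' j) ?_
    intro r hr
    rcases Nat.eq_zero_or_pos r with h1 | h1
    · subst h1
      simpa using h0
    · have hrq : r - 1 < q := by
        by_contra hc
        have : (q + 1) * n ≤ r * n := Nat.mul_le_mul_right _ (by omega)
        rw [Nat.add_mul, one_mul] at this
        omega
      have h2 := congrFun h (j, ⟨r - 1, hrq⟩)
      simp only at h2
      have e : (r - 1 + 1) = r := by omega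
      simpa [e] using h2

end Pool.Agent.helper54.RQ
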